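import Pool.Agent.GBS.Stmts

/-!
Row DIV of table `gbs` (MP_33f2b9_gt): the integral over the slab of the divergence of a tangential
vector field, divided by `|x|^2`, vanishes.  Rotation invariance as in `Helper19_MVS/GBI.lean`.
-/

set_option autoImplicit false

noncomputable section

open scoped ContDiff Topology RealInnerProductSpace
open Set MeasureTheory Filter

namespace Pool.Agent.GBS.H31

open Pool.Agent.RF Pool.Agent.MVS Pool.Agent.GBS

/-- the closed annulus -/
def ann : Set E5 := {x | 1 ≤ ‖x‖ ∧ ‖x‖ ≤ Real.exp 1}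

theorem ann_compact : IsCompact ann := by
  have h : ann = Metric.closedBall (0 : E5) (Real.exp 1) \ Metric.ball (0 : E5) 1 := by
    ext x
    simp only [ann, mem_ofPred_eq, Set.mem_sdiff, Metric.mem_closedBall, Metric.mem_ball,
      dist_zero_right, not_lt]
    exact and_comm
  rw [h]
  exact (isCompact_closedBall _ _).diff Metric.isOpen_ball

theorem slab_sub : slab (Fin 5) ⊆ ann := fun _ hx => ⟨hx.1.le, hx.2.le⟩

theorem ann_ne {x : E5} (hx : x ∈ ann) : x ≠ 0 := by
  rintro rfl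
  have := hx.1
  rw [norm_zero] at this
  linarith

theorem slab_meas : MeasurableSet (slab (Fin 5)) := by
  have : slab (Fin 5) = (fun x : E5 => ‖x‖) ⁻¹' Ioo 1 (Real.exp 1) := rfl
  rw [this]
  exact measurable_norm measurableSet_Ioo

theorem int_of_cont {f : E5 → ℝ} (hf : ContinuousOn f ann) : IntegrableOn f (slab (Fin 5)) :=
  (hf.integrableOn_compact ann_compact).mono_set slab_sub

/-- rotation in the plane of `i, j` -/
def rt (i j : Fin 5) (t : ℝ) (x : E5) : E5 :=
  x + (Real.cos t - 1) • (x i • eb i + x j • eb j) + Real.sin t • (x i • eb j - x j • eb i)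

/-- its derivative -/
def drt (i j : Fin 5) (t : ℝ) (x : E5) : E5 :=
  (-Real.sin t) • (x i • eb i + x j • eb j) + Real.cos t • (x i • eb j - x j • eb i)

theorem eb_apply (i k : Fin 5) : (eb i : E5) k = if k = i then (1 : ℝ) else 0 := by
  unfold eb
  exact PiLp.single_apply 2 ℝ i 1 k

theorem rt_apply (i j k : Fin 5) (t : ℝ) (x : E5) : (rt i j t x) k =
    x k + (Real.cos t - 1) * (x i * (if k = i then 1 else 0) + x j * (if k = j then 1 else 0)) +
      Real.sin t * (x i * (if k = j then 1 else 0) - x j * (if k = i then 1 else 0)) := by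
  unfold rt
  rw [PiLp.add_apply, PiLp.add_apply, PiLp.smul_apply, PiLp.smul_apply, PiLp.add_apply,
    PiLp.sub_apply, PiLp.smul_apply, PiLp.smul_apply, PiLp.smul_apply, PiLp.smul_apply,
    eb_apply, eb_apply]
  rfl

theorem sq_sum (a b : Fin 5 → ℝ) (i j : Fin 5) (hij : i ≠ j) (c s : ℝ) (hs : s ^ 2 + c ^ 2 = 1)
    (h : ∀ k, b k = a k + (c - 1) * (a i * (if k = i then 1 else 0) +
      a j * (if k = j then 1 else 0)) + s * (a i * (if k = j then 1 else 0) -
      a j * (if k = i then 1 else 0))) : ∑ k, b k ^ 2 = ∑ k, a k ^ 2 := by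
  have hi : b i = c * a i - s * a j := by
    rw [h i, if_pos rfl, if_neg hij]
    ring
  have hj : b j = c * a j + s * a i := by
    rw [h j, if_pos rfl, if_neg hij.symm]
    ring
  have hk : ∀ k, b k ^ 2 = a k ^ 2 + (if k = i then b i ^ 2 - a i ^ 2 else 0) +
      (if k = j then b j ^ 2 - a j ^ 2 else 0) := by
    intro k
    by_cases h1 : k = i
    · subst h1
      rw [if_pos rfl, if_neg hij]
      ring
    · by_cases h2 : k = j
      · subst h2
        rw [if_pos rfl, if_neg h1]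
        ring
      · rw [if_neg h1, if_neg h2, h k, if_neg h1, if_neg h2]
        ring
  rw [Finset.sum_congr rfl (fun k _ => hk k), Finset.sum_add_distrib, Finset.sum_add_distrib,
    Finset.sum_ite_eq' Finset.univ i, Finset.sum_ite_eq' Finset.univ j, if_pos (Finset.mem_univ i),
    if_pos (Finset.mem_univ j), hi, hj]
  linear_combination (a i ^ 2 + a j ^ 2) * hs

theorem rt_norm {i j : Fin 5} (hij : i ≠ j) (t : ℝ) (x : E5) : ‖rt i j t x‖ = ‖x‖ := by
  have h : ‖rt i j t x‖ ^ 2 = ‖x‖ ^ 2 := by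
    rw [EuclideanSpace.real_norm_sq_eq, EuclideanSpace.real_norm_sq_eq]
    exact sq_sum (fun k => x k) (fun k => (rt i j t x) k) i j hij _ _
      (Real.sin_sq_add_cos_sq t) fun k => rt_apply i j k t x
  rwa [sq_eq_sq₀ (norm_nonneg _) (norm_nonneg _)] at h

/-- the rotation as a linear isometry -/
def li {i j : Fin 5} (hij : i ≠ j) (t : ℝ) : E5 →ₗᵢ[ℝ] E5 where
  toFun := rt i j t
  map_add' x y := by
    ext k
    simp only [rt, PiLp.add_apply, PiLp.smul_apply, PiLp.sub_apply, smul_eq_mul]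
    ring
  map_smul' c x := by
    ext k
    simp only [rt, PiLp.add_apply, PiLp.smul_apply, PiLp.sub_apply, smul_eq_mul, RingHom.id_apply]
    ring
  norm_map' := rt_norm hij t

theorem int_rt {i j : Fin 5} (hij : i ≠ j) (t : ℝ) (h : E5 → ℝ) :
    ∫ x in slab (Fin 5), h (rt i j t x) = ∫ x in slab (Fin 5), h x := by
  let L : E5 ≃ₗᵢ[ℝ] E5 := (li hij t).toLinearIsometryEquiv rfl
  have hL : ∀ x, L x = rt i j t x := fun _ => rfl
  have h1 := L.measurePreserving.setIntegral_preimage_emb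
    L.toHomeomorph.measurableEmbedding h (slab (Fin 5))
  have h2 : L ⁻¹' slab (Fin 5) = slab (Fin 5) := by
    ext x
    simp only [slab, mem_preimage, mem_ofPred_eq, hL, rt_norm hij]
  rw [h2] at h1
  exact h1

theorem rt_cont (i j : Fin 5) : Continuous fun p : ℝ × E5 => rt i j p.1 p.2 := by
  unfold rt
  fun_prop

theorem drt_cont (i j : Fin 5) : Continuous fun p : ℝ × E5 => drt i j p.1 p.2 := by
  unfold drt
  fun_prop

theorem rt_deriv (i j : Fin 5) (t : ℝ) (x : E5) :
    HasDerivAt (fun s => rt i j s x) (drt i j t x) t := by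
  unfold rt drt
  have h1 := ((Real.hasDerivAt_cos t).sub_const 1).smul_const (x i • eb i + x j • eb j)
  have h2 := (Real.hasDerivAt_sin t).smul_const (x i • eb j - x j • eb i)
  have h3 := (h1.const_add x).add h2
  exact h3

theorem rot_zero {g : E5 → ℝ} {g' : E5 → E5 →L[ℝ] ℝ}
    (hg : ∀ x, x ≠ 0 → HasFDerivAt g (g' x) x) (hc : ContinuousOn g' (Om (Fin 5)))
    {i j : Fin 5} (hij : i ≠ j) :
    IntegrableOn (fun x => (x i * g' x (eb j) - x j * g' x (eb i)) / ‖x‖ ^ 4) (slab (Fin 5)) ∧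
    ∫ x in slab (Fin 5), (x i * g' x (eb j) - x j * g' x (eb i)) / ‖x‖ ^ 4 = 0 := by
  have hgc : ContinuousOn g (Om (Fin 5)) := fun x hx => (hg x hx).continuousAt.continuousWithinAt
  have hrt : ∀ t, ∀ x ∈ ann, rt i j t x ∈ ann := by
    intro t x hx
    refine ⟨?_, ?_⟩
    · rw [rt_norm hij]; exact hx.1
    · rw [rt_norm hij]; exact hx.2
  have hannOm : ann ⊆ Om (Fin 5) := fun x hx => ann_ne hx
  have hn0 : ∀ x ∈ ann, ‖x‖ ^ 4 ≠ 0 := fun x hx => pow_ne_zero 4 (norm_ne_zero_iff.mpr (ann_ne hx))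
  have hFc : ∀ t, ContinuousOn (fun x => g (rt i j t x) / ‖x‖ ^ 4) ann := by
    intro t
    refine ContinuousOn.div ?_ (by fun_prop) hn0
    refine hgc.comp ?_ fun x hx => hannOm (hrt t x hx)
    exact ((rt_cont i j).comp (Continuous.prodMk_right t)).continuousOn
  have hF'c : ContinuousOn (fun p : ℝ × E5 => g' (rt i j p.1 p.2) (drt i j p.1 p.2) / ‖p.2‖ ^ 4)
      (Icc (-1) 1 ×ˢ ann) := by
    refine ContinuousOn.div ?_ (by fun_prop) fun p hp => hn0 p.2 hp.2
    refine ContinuousOn.clm_apply ?_ (drt_cont i j).continuousOn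
    exact hc.comp (rt_cont i j).continuousOn fun p hp => hannOm (hrt p.1 p.2 hp.2)
  obtain ⟨C, hC⟩ := (isCompact_Icc.prod ann_compact).exists_bound_of_continuousOn hF'c
  have hfin : volume (slab (Fin 5)) < ⊤ :=
    (measure_mono slab_sub).trans_lt ann_compact.measure_lt_top
  have key := hasDerivAt_integral_of_dominated_loc_of_deriv_le (μ := volume.restrict (slab (Fin 5)))
    (F := fun t x => g (rt i j t x) / ‖x‖ ^ 4)
    (F' := fun t x => g' (rt i j t x) (drt i j t x) / ‖x‖ ^ 4) (x₀ := (0 : ℝ)) (s := Ioo (-1) 1)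
    (bound := fun _ => C) (Ioo_mem_nhds (by norm_num) (by norm_num))
    (Eventually.of_forall fun t => ((hFc t).mono slab_sub).aestronglyMeasurable slab_meas)
    (int_of_cont (hFc 0)) ?_ ?_ ?_ ?_
  · obtain ⟨k1, k2⟩ := key
    have e0 : (fun x => g' (rt i j 0 x) (drt i j 0 x) / ‖x‖ ^ 4) =
        fun x => (x i * g' x (eb j) - x j * g' x (eb i)) / ‖x‖ ^ 4 := by
      funext x
      have a1 : rt i j 0 x = x := by simp [rt]
      have a2 : drt i j 0 x = x i • eb j - x j • eb i := by simp [drt]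
      rw [a1, a2, map_sub, map_smul, map_smul, smul_eq_mul, smul_eq_mul]
    have e1 : (fun t => ∫ x in slab (Fin 5), g (rt i j t x) / ‖x‖ ^ 4) =
        fun _ => ∫ x in slab (Fin 5), g x / ‖x‖ ^ 4 := by
      funext t
      have := int_rt hij t (fun x => g x / ‖x‖ ^ 4)
      simp only [rt_norm hij] at this
      exact this
    rw [e1] at k2
    have k3 := k2.unique (hasDerivAt_const (0 : ℝ) _)
    rw [e0] at k1
    simp only [show ∀ x, g' (rt i j 0 x) (drt i j 0 x) / ‖x‖ ^ 4 =
      (x i * g' x (eb j) - x j * g' x (eb i)) / ‖x‖ ^ 4 from fun x => congrFun e0 x] at k3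
    exact ⟨k1, k3⟩
  · refine ContinuousOn.aestronglyMeasurable ?_ slab_meas
    have hmap : ∀ x ∈ slab (Fin 5), ((0 : ℝ), x) ∈ Icc (-1 : ℝ) 1 ×ˢ ann := fun x hx =>
      ⟨⟨by norm_num, by norm_num⟩, slab_sub hx⟩
    have hc0 : Continuous fun x : E5 => ((0 : ℝ), x) := by fun_prop
    have hcomp := ContinuousOn.comp (f := fun x : E5 => ((0 : ℝ), x))
      (t := Icc (-1 : ℝ) 1 ×ˢ ann) hF'c hc0.continuousOn hmap
    exact hcomp
  · refine (ae_restrict_iff' slab_meas).mpr (Eventually.of_forall fun x hx t ht => ?_)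
    exact hC (t, x) ⟨⟨ht.1.le, ht.2.le⟩, slab_sub hx⟩
  · exact integrable_const_iff.mpr (Or.inr ⟨by simpa using hfin⟩)
  · refine (ae_restrict_iff' slab_meas).mpr (Eventually.of_forall fun x hx t _ => ?_)
    have h0 : rt i j t x ≠ 0 := ann_ne (hrt t x (slab_sub hx))
    exact ((hg _ h0).comp_hasDerivAt t (rt_deriv i j t x)).div_const _

theorem rot_zero' {g : E5 → ℝ} {g' : E5 → E5 →L[ℝ] ℝ}
    (hg : ∀ x, x ≠ 0 → HasFDerivAt g (g' x) x) (hc : ContinuousOn g' (Om (Fin 5)))
    (i j : Fin 5) :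
    IntegrableOn (fun x => (x i * g' x (eb j) - x j * g' x (eb i)) / ‖x‖ ^ 4) (slab (Fin 5)) ∧
    ∫ x in slab (Fin 5), (x i * g' x (eb j) - x j * g' x (eb i)) / ‖x‖ ^ 4 = 0 := by
  by_cases hij : i = j
  · subst hij
    simp only [sub_self, zero_div, integral_zero, and_true]
    exact integrableOn_zero
  · exact rot_zero hg hc hij

theorem alg (X β : Fin 5 → ℝ) (D e : Fin 5 → Fin 5 → ℝ) (N : ℝ)
    (he : ∀ j k, e j k = if j = k then 1 else 0)
    (ha : ∑ i, X i * β i = 0) (hb : ∑ i, X i * ∑ j, X j * D i j = 0)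
    (hN : ∑ i, X i ^ 2 = N) :
    ∑ i, ∑ j, (X i * (β i * e j j + X j * D i j - (β j * e i j + X i * D j j)) -
      X j * (β i * e j i + X j * D i i - (β j * e i i + X i * D j i))) =
      -2 * N * ∑ i, D i i := by
  have h1 : ∀ i j, (X i * (β i * e j j + X j * D i j - (β j * e i j + X i * D j j)) -
      X j * (β i * e j i + X j * D i i - (β j * e i i + X i * D j i))) =
      X i * β i + X i * (X j * D i j) - (if i = j then X i * β j else 0) - X i ^ 2 * D j j
      - (if j = i then X j * β i else 0) - X j ^ 2 * D i i + X j * β j + X j * (X i * D j i) := by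
    intro i j
    rw [he j j, he i i, he i j, he j i, if_pos rfl, if_pos rfl]
    by_cases h : i = j
    · subst h
      simp only [if_true]
      ring
    · have h' : ¬ (j = i) := fun h2 => h h2.symm
      rw [if_neg h, if_neg h', if_neg h, if_neg h']
      ring
  rw [Finset.sum_congr rfl (fun i _ => Finset.sum_congr rfl (fun j _ => h1 i j))]
  simp only [Finset.sum_add_distrib, Finset.sum_sub_distrib, Finset.sum_ite_eq,
    Finset.sum_ite_eq', Finset.mem_univ, if_true, Finset.sum_const, Finset.card_univ,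
    Fintype.card_fin, nsmul_eq_mul, ← Finset.mul_sum, ← Finset.sum_mul, ha, hN]
  have h2 : ∑ i, ∑ j, X j * (X i * D j i) = 0 := by
    rw [Finset.sum_comm]
    simp only [← Finset.mul_sum]
    exact hb
  rw [h2, hb]
  ring

theorem div_ : DivStatement := by
  intro b hb ht
  have hOm : IsOpen (Om (Fin 5)) := isOpen_ne
  have hd : ∀ i x, x ≠ 0 → HasFDerivAt (b i) (fderiv ℝ (b i) x) x := fun i x hx =>
    (((hb i).differentiableOn (by norm_num)).differentiableAt (hOm.mem_nhds hx)).hasFDerivAt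
  have hcd : ∀ i, ContinuousOn (fderiv ℝ (b i)) (Om (Fin 5)) := fun i =>
    (hb i).continuousOn_fderiv_of_isOpen hOm (by norm_num)
  have hbc : ∀ i, ContinuousOn (b i) (Om (Fin 5)) := fun i => (hb i).continuousOn
  have hP : ∀ (i : Fin 5) (x : E5),
      HasFDerivAt (fun y : E5 => y i) (EuclideanSpace.proj i : E5 →L[ℝ] ℝ) x := fun i x =>
    (EuclideanSpace.proj i : E5 →L[ℝ] ℝ).hasFDerivAt
  obtain ⟨g', hg'⟩ : ∃ g' : Fin 5 → Fin 5 → E5 → E5 →L[ℝ] ℝ, ∀ i j x, g' i j x =
      (b i x • (EuclideanSpace.proj j : E5 →L[ℝ] ℝ) + x j • fderiv ℝ (b i) x) -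
      (b j x • (EuclideanSpace.proj i : E5 →L[ℝ] ℝ) + x i • fderiv ℝ (b j) x) :=
    ⟨_, fun i j x => rfl⟩
  have hg : ∀ i j x, x ≠ 0 → HasFDerivAt (fun y : E5 => b i y * y j - b j y * y i)
      (g' i j x) x := by
    intro i j x hx
    rw [hg']
    exact ((hd i x hx).mul (hP j x)).sub ((hd j x hx).mul (hP i x))
  have hgc : ∀ i j, ContinuousOn (g' i j) (Om (Fin 5)) := by
    intro i j
    have e : g' i j = fun x =>
      (b i x • (EuclideanSpace.proj j : E5 →L[ℝ] ℝ) + x j • fderiv ℝ (b i) x) -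
      (b j x • (EuclideanSpace.proj i : E5 →L[ℝ] ℝ) + x i • fderiv ℝ (b j) x) := by
      funext x
      exact hg' i j x
    rw [e]
    have hx : ∀ k : Fin 5, ContinuousOn (fun x : E5 => x k) (Om (Fin 5)) := fun k =>
      (EuclideanSpace.proj k : E5 →L[ℝ] ℝ).continuous.continuousOn
    exact (((hbc i).smul continuousOn_const).add ((hx j).smul (hcd i))).sub
      (((hbc j).smul continuousOn_const).add ((hx i).smul (hcd j)))
  have hz := fun i j => rot_zero' (hg i j) (hgc i j) i j
  have key : ∀ x ∈ slab (Fin 5), (‖x‖ ^ 2)⁻¹ * ∑ i, fderiv ℝ (b i) x (eb i) =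
      ∑ i, ∑ j, (-(1 / 2 : ℝ)) *
        ((x i * g' i j x (eb j) - x j * g' i j x (eb i)) / ‖x‖ ^ 4) := by
    intro x hx
    have hx0 : x ≠ 0 := ann_ne (slab_sub hx)
    have hn : ‖x‖ ≠ 0 := norm_ne_zero_iff.mpr hx0
    have hxb : x = ∑ i, x i • (eb i : E5) := by
      ext k
      rw [WithLp.ofLp_sum, Finset.sum_apply]
      simp only [PiLp.smul_apply, eb_apply, smul_eq_mul, mul_ite, mul_one, mul_zero,
        Finset.sum_ite_eq, Finset.mem_univ, if_true]
    have hder : HasFDerivAt (fun y : E5 => ∑ i, y i * b i y)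
        (∑ i, (x i • fderiv ℝ (b i) x + b i x • (EuclideanSpace.proj i : E5 →L[ℝ] ℝ))) x :=
      HasFDerivAt.fun_sum fun i _ => (hP i x).mul (hd i x hx0)
    have hev : (fun y : E5 => ∑ i, y i * b i y) =ᶠ[𝓝 x] fun _ => (0 : ℝ) :=
      Filter.eventually_of_mem (hOm.mem_nhds hx0) (fun y hy => ht y hy)
    have hder0 : HasFDerivAt (fun y : E5 => ∑ i, y i * b i y) (0 : E5 →L[ℝ] ℝ) x :=
      (hasFDerivAt_const (0 : ℝ) x).congr_of_eventuallyEq hev
    have huni := hder.unique hder0
    have h1 := congrArg (fun L : E5 →L[ℝ] ℝ => L x) huni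
    simp only [ContinuousLinearMap.sum_apply, ContinuousLinearMap.add_apply,
      ContinuousLinearMap.smul_apply, smul_eq_mul, ContinuousLinearMap.zero_apply,
      Finset.sum_add_distrib] at h1
    have h0 : ∑ i, x i * b i x = 0 := ht x hx0
    have h2 : ∑ i, b i x * (EuclideanSpace.proj i : E5 →L[ℝ] ℝ) x = 0 := by
      rw [← h0]
      exact Finset.sum_congr rfl (fun i _ => mul_comm _ _)
    rw [h2, add_zero] at h1
    have h3 : ∀ i, fderiv ℝ (b i) x x = ∑ j, x j * fderiv ℝ (b i) x (eb j) := by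
      intro i
      refine (congrArg (fderiv ℝ (b i) x) hxb).trans ?_
      rw [map_sum]
      simp only [map_smul, smul_eq_mul]
    have h4 : ∑ i, x i * ∑ j, x j * fderiv ℝ (b i) x (eb j) = 0 := by
      rw [← h1]
      exact Finset.sum_congr rfl (fun i _ => by rw [h3 i])
    have hN : ∑ i, (x i) ^ 2 = ‖x‖ ^ 2 := (EuclideanSpace.real_norm_sq_eq x).symm
    have h5 := alg (fun i => x i) (fun i => b i x) (fun i j => fderiv ℝ (b i) x (eb j))
      (fun j k => (eb k : E5) j) (‖x‖ ^ 2) (fun j k => eb_apply k j) h0 h4 hN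
    have h6 : ∀ i j k, g' i j x (eb k) = b i x * (eb k : E5) j + x j * fderiv ℝ (b i) x (eb k) -
        (b j x * (eb k : E5) i + x i * fderiv ℝ (b j) x (eb k)) := by
      intro i j k
      rw [hg']
      rfl
    simp only [← Finset.mul_sum, ← Finset.sum_div, h6]
    rw [h5]
    field_simp
  have hint : IntegrableOn (fun x => ∑ i, ∑ j, (-(1 / 2 : ℝ)) *
      ((x i * g' i j x (eb j) - x j * g' i j x (eb i)) / ‖x‖ ^ 4)) (slab (Fin 5)) := by
    refine integrable_finset_sum _ fun i _ => integrable_finset_sum _ fun j _ => ?_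
    exact (hz i j).1.const_mul _
  refine ⟨?_, ?_⟩
  · refine (integrableOn_congr_fun (fun x hx => ?_) slab_meas).2 hint
    exact key x hx
  · rw [setIntegral_congr_fun slab_meas key, integral_finset_sum]
    · refine Finset.sum_eq_zero fun i _ => ?_
      rw [integral_finset_sum]
      · refine Finset.sum_eq_zero fun j _ => ?_
        rw [integral_const_mul, (hz i j).2, mul_zero]
      · intro j _
        exact (hz i j).1.const_mul _
    · intro i _
      refine integrable_finset_sum _ fun j _ => ?_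
      exact (hz i j).1.const_mul _

end Pool.Agent.GBS.H31
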