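import Pool.Agent.GBS.StmtsB
import Pool.Agent.Helper23_MVS.BR3
import Pool.Agent.Helper31_GBS.DIV

/-!
Row PLR of table `gbs` (MP_33f2b9_gt): polar coordinates for functions homogeneous of degree `-5`
(the proof of `br3` in `Helper23_MVS/BR3.lean` for a continuous function).
-/

set_option autoImplicit false

noncomputable section

open scoped ContDiff Topology RealInnerProductSpace
open Set MeasureTheory

namespace Pool.Agent.GBS.H31

open Pool.Agent.RF Pool.Agent.MVS Pool.Agent.GBS

theorem plr : PlrStmt := by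
  intro f hf hh
  refine ⟨int_of_cont (hf.mono fun x hx => ann_ne hx), ?_⟩
  rw [← integral_indicator slab_meas]
  have e1 : ∫ x, (slab (Fin 5)).indicator (fun x => f x) x =
      ∫ x : ({(0)}ᶜ : Set E5), (slab (Fin 5)).indicator (fun x => f x) x.1
        ∂((volume : Measure E5).comap (↑)) := by
    rw [integral_subtype_comap (measurableSet_singleton _).compl
      (fun x => (slab (Fin 5)).indicator (fun x => f x) x), restrict_compl_singleton]
  rw [e1]
  have hdim : Module.finrank ℝ E5 - 1 = 4 := by simp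
  have e2 := (volume : Measure E5).measurePreserving_homeomorphUnitSphereProd.integral_comp
    (Homeomorph.measurableEmbedding _)
    (fun z : Metric.sphere (0 : E5) 1 × Ioi (0 : ℝ) =>
      f (z.1 : E5) *
        (if 1 < z.2.1 ∧ z.2.1 < Real.exp 1 then (z.2.1 ^ 5)⁻¹ else 0))
  rw [hdim] at e2
  rw [integral_prod_mul (fun x : Metric.sphere (0 : E5) 1 => f (x : E5))
    (fun r : Ioi (0 : ℝ) => (if 1 < r.1 ∧ r.1 < Real.exp 1 then (r.1 ^ 5)⁻¹ else 0)),
    Pool.Agent.MVS.H23.radial_int, mul_one] at e2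
  rw [← e2]
  refine integral_congr_ae (Filter.Eventually.of_forall fun x => ?_)
  simp only
  have hx0 : (x : E5) ≠ 0 := x.2
  have hpos : 0 < ‖(x : E5)‖ := norm_pos_iff.2 hx0
  rw [homeomorphUnitSphereProd_apply_snd_coe, homeomorphUnitSphereProd_apply_fst_coe]
  by_cases h : (x : E5) ∈ slab (Fin 5)
  · have h' : 1 < ‖(x : E5)‖ ∧ ‖(x : E5)‖ < Real.exp 1 := h
    rw [indicator_of_mem h, if_pos h']
    set u : E5 := ‖(x : E5)‖⁻¹ • (x : E5) with hu
    have hun : ‖u‖ = 1 := by rw [hu, norm_smul, norm_inv, norm_norm, inv_mul_cancel₀ hpos.ne']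
    have hu0 : u ∈ Om (Fin 5) := by
      intro h0; rw [h0] at hun; simp at hun
    have hux : (x : E5) = ‖(x : E5)‖ • u := by
      rw [hu, smul_smul, mul_inv_cancel₀ hpos.ne', one_smul]
    nth_rewrite 1 [hux]
    rw [hh _ hpos u hu0]
    ring
  · have h' : ¬ (1 < ‖(x : E5)‖ ∧ ‖(x : E5)‖ < Real.exp 1) := h
    rw [indicator_of_notMem h, if_neg h', mul_zero]

end Pool.Agent.GBS.H31
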